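import Pool.Agent.W978.QO.Stm

set_option autoImplicit false

/-! QO-LS of the project QO: summation of the lower bounds. -/

namespace Pool.Agent.W891.QO
open Finset Pool.Agent.W978.QN Pool.Agent.W978.QO

theorem nm_nonneg' (v : Fin 3 → ℤ) : 0 ≤ nm v := (abs_nonneg (v 2)).trans (le_max_right _ _)

theorem ls : S_LS := by
  classical
  rintro a ⟨c, K₀, hc, hbox⟩
  -- enlarge `K`
  set K := K₀ + 1 with hK
  have hbox' : ∀ X₁ X₂ X₃ : ℕ, K ≤ X₁ → K ≤ X₂ → K * (X₁ * X₂) ^ 3 ≤ X₃ →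
      ∃ S : Finset (Fin 3 → Fin 3 → ℤ),
      (∀ P ∈ S, (∀ i, Rep (P i)) ∧ tf a P = 0 ∧ InU a P ∧
      nm (P 0) ≤ X₁ ∧ (X₁ : ℤ) < 2 * nm (P 0) ∧ nm (P 1) ≤ X₂ ∧ (X₂ : ℤ) < 2 * nm (P 1) ∧
      nm (P 2) ≤ X₃) ∧
      c * ((X₁ : ℝ) * X₂ * X₃) ^ 2 ≤ (S.card : ℝ) := by
    intro X₁ X₂ X₃ h1 h2 h3
    refine hbox X₁ X₂ X₃ (by omega) (by omega) (le_trans ?_ h3)
    exact Nat.mul_le_mul_right _ (by omega)
  refine ⟨c / 6400, 2 ^ (20 * K), by positivity, fun B hB => ?_⟩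
  set L := Nat.log 2 B with hL
  set M := L / 10 with hM
  have hB0 : B ≠ 0 := by
    have : 0 < 2 ^ (20 * K) := by positivity
    omega
  have hL20 : 20 * K ≤ L := by
    rw [hL]
    exact Nat.le_log_of_pow_le (by norm_num) hB
  have hM2 : 2 * K ≤ M := by omega
  have h10 : 10 * M ≤ L := by omega
  have hLB : 2 ^ L ≤ B := Nat.pow_log_le_self 2 hB0
  have hKlt : K ≤ 2 ^ K := Nat.lt_two_pow_self.le
  have hex : ∀ kl : ℕ × ℕ, kl ∈ (Finset.Icc K M ×ˢ Finset.Icc K M) →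
      ∃ S : Finset (Fin 3 → Fin 3 → ℤ),
      (∀ P ∈ S, (∀ i, Rep (P i)) ∧ tf a P = 0 ∧ InU a P ∧
      nm (P 0) ≤ ((2 ^ kl.1 : ℕ) : ℤ) ∧ ((2 ^ kl.1 : ℕ) : ℤ) < 2 * nm (P 0) ∧
      nm (P 1) ≤ ((2 ^ kl.2 : ℕ) : ℤ) ∧ ((2 ^ kl.2 : ℕ) : ℤ) < 2 * nm (P 1) ∧
      ∏ i, nm (P i) ≤ B) ∧ c * (B : ℝ) ^ 2 / 4 ≤ (S.card : ℝ) := by
    rintro ⟨k, l⟩ hkl
    rw [Finset.mem_product, Finset.mem_Icc, Finset.mem_Icc] at hkl
    obtain ⟨⟨hk1, hk2⟩, hl1, hl2⟩ := hkl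
    simp only at hk1 hk2 hl1 hl2
    have hbig : K * (2 ^ k * 2 ^ l) ^ 3 * (2 ^ k * 2 ^ l) ≤ B := by
      have e1 : (2 ^ k * 2 ^ l) ^ 3 * (2 ^ k * 2 ^ l) = 2 ^ (4 * (k + l)) := by
        rw [← pow_add, ← pow_mul, ← pow_add]; congr 1; ring
      rw [mul_assoc, e1]
      calc K * 2 ^ (4 * (k + l)) ≤ 2 ^ K * 2 ^ (4 * (k + l)) := Nat.mul_le_mul_right _ hKlt
        _ = 2 ^ (K + 4 * (k + l)) := (pow_add 2 K (4 * (k + l))).symm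
        _ ≤ 2 ^ L := Nat.pow_le_pow_right (by norm_num) (by omega)
        _ ≤ B := hLB
    have hpos : 0 < 2 ^ k * 2 ^ l := by positivity
    have hX3 : K * (2 ^ k * 2 ^ l) ^ 3 ≤ B / (2 ^ k * 2 ^ l) :=
      (Nat.le_div_iff_mul_le hpos).2 hbig
    have hX31 : 1 ≤ B / (2 ^ k * 2 ^ l) := by
      refine le_trans ?_ hX3
      have : 0 < K * (2 ^ k * 2 ^ l) ^ 3 := by positivity
      omega
    obtain ⟨S, hS1, hS2⟩ := hbox' (2 ^ k) (2 ^ l) (B / (2 ^ k * 2 ^ l))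
      (hKlt.trans (Nat.pow_le_pow_right (by norm_num) hk1))
      (hKlt.trans (Nat.pow_le_pow_right (by norm_num) hl1)) hX3
    refine ⟨S, fun P hP => ?_, ?_⟩
    · obtain ⟨p1, p2, p3, p4, p5, p6, p7, p8⟩ := hS1 P hP
      refine ⟨p1, p2, p3, p4, p5, p6, p7, ?_⟩
      rw [Fin.prod_univ_three]
      have q1 : nm (P 0) * nm (P 1) ≤ ((2 ^ k : ℕ) : ℤ) * ((2 ^ l : ℕ) : ℤ) :=
        mul_le_mul p4 p6 (nm_nonneg' _) (by positivity)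
      have q2 : nm (P 0) * nm (P 1) * nm (P 2) ≤
          ((2 ^ k : ℕ) : ℤ) * ((2 ^ l : ℕ) : ℤ) * ((B / (2 ^ k * 2 ^ l) : ℕ) : ℤ) :=
        mul_le_mul q1 p8 (nm_nonneg' _) (by positivity)
      refine q2.trans ?_
      have q3 : (2 ^ k * 2 ^ l) * (B / (2 ^ k * 2 ^ l)) ≤ B := Nat.mul_div_le _ _
      exact_mod_cast q3
    · refine le_trans ?_ hS2
      have r1 : B ≤ 2 * (2 ^ k * 2 ^ l * (B / (2 ^ k * 2 ^ l))) := by
        have r2 : B < 2 ^ k * 2 ^ l * (B / (2 ^ k * 2 ^ l) + 1) :=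
          Nat.lt_mul_div_succ B hpos
        have r3 : 2 ^ k * 2 ^ l * 1 ≤ 2 ^ k * 2 ^ l * (B / (2 ^ k * 2 ^ l)) :=
          Nat.mul_le_mul_left _ hX31
        rw [mul_add] at r2
        omega
      have r4 : (B : ℝ) / 2 ≤ ((2 ^ k : ℕ) : ℝ) * ((2 ^ l : ℕ) : ℝ) *
          ((B / (2 ^ k * 2 ^ l) : ℕ) : ℝ) := by
        have : (B : ℝ) ≤ 2 * (((2 ^ k : ℕ) : ℝ) * ((2 ^ l : ℕ) : ℝ) *
          ((B / (2 ^ k * 2 ^ l) : ℕ) : ℝ)) := by exact_mod_cast r1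
        linarith
      have r5 : ((B : ℝ) / 2) ^ 2 ≤ (((2 ^ k : ℕ) : ℝ) * ((2 ^ l : ℕ) : ℝ) *
          ((B / (2 ^ k * 2 ^ l) : ℕ) : ℝ)) ^ 2 := pow_le_pow_left₀ (by positivity) r4 2
      calc c * (B : ℝ) ^ 2 / 4 = c * ((B : ℝ) / 2) ^ 2 := by ring
        _ ≤ _ := mul_le_mul_of_nonneg_left r5 hc.le
  choose! T hT1 hT2 using hex
  refine ⟨(Finset.Icc K M ×ˢ Finset.Icc K M).biUnion T, fun P hP => ?_, ?_⟩
  · obtain ⟨kl, hkl, hPk⟩ := Finset.mem_biUnion.1 hP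
    obtain ⟨p1, p2, p3, _, _, _, _, p8⟩ := hT1 kl hkl P hPk
    exact ⟨p1, p2, p3, p8⟩
  · have hdis : Set.PairwiseDisjoint ((Finset.Icc K M ×ˢ Finset.Icc K M : Finset (ℕ × ℕ)) :
        Set (ℕ × ℕ)) T := by
      rintro ⟨k, l⟩ hkl ⟨k', l'⟩ hkl' hne
      rw [Function.onFun, Finset.disjoint_left]
      intro P hP hP'
      obtain ⟨_, _, _, p4, p5, p6, p7, _⟩ := hT1 _ hkl P hP
      obtain ⟨_, _, _, q4, q5, q6, q7, _⟩ := hT1 _ hkl' P hP'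
      simp only at p4 p5 p6 p7 q4 q5 q6 q7
      have key : ∀ (x y : ℕ) (z : ℤ), z ≤ ((2 ^ x : ℕ) : ℤ) → ((2 ^ y : ℕ) : ℤ) < 2 * z →
          y ≤ x := by
        intro x y z h1 h2
        have h3 : ((2 ^ y : ℕ) : ℤ) < ((2 ^ (x + 1) : ℕ) : ℤ) := by
          rw [pow_succ]; push_cast at h1 h2 ⊢; linarith
        have h4 : 2 ^ y < 2 ^ (x + 1) := by exact_mod_cast h3
        have h5 := (Nat.pow_lt_pow_iff_right (by norm_num : 1 < 2)).1 h4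
        omega
      have e1 : k' = k := le_antisymm (key _ _ _ p4 q5) (key _ _ _ q4 p5)
      have e2 : l' = l := le_antisymm (key _ _ _ p6 q7) (key _ _ _ q6 p7)
      exact hne (by rw [e1, e2])
    rw [Finset.card_biUnion (fun x hx y hy hxy => hdis hx hy hxy)]
    push_cast
    have hsum : ∑ kl ∈ (Finset.Icc K M ×ˢ Finset.Icc K M), c * (B : ℝ) ^ 2 / 4 ≤
        ∑ kl ∈ (Finset.Icc K M ×ˢ Finset.Icc K M), ((T kl).card : ℝ) :=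
      Finset.sum_le_sum fun kl hkl => hT2 kl hkl
    refine le_trans ?_ hsum
    rw [Finset.sum_const, Finset.card_product, Nat.card_Icc, nsmul_eq_mul]
    have hMr : (2 : ℝ) * K ≤ M := by exact_mod_cast hM2
    have hcast : ((M + 1 - K : ℕ) : ℝ) = (M : ℝ) + 1 - K := by
      rw [Nat.cast_sub (by omega)]; push_cast; ring
    have hlog : Real.log B ≤ 20 * (M : ℝ) := by
      have h1 : B < 2 ^ (L + 1) := Nat.lt_pow_succ_log_self (by norm_num) B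
      have h2 : (B : ℝ) ≤ (2 : ℝ) ^ (L + 1) := by exact_mod_cast h1.le
      have hBpos : (0 : ℝ) < B := by exact_mod_cast Nat.pos_of_ne_zero hB0
      have h3 : Real.log B ≤ Real.log ((2 : ℝ) ^ (L + 1)) := Real.log_le_log hBpos h2
      rw [Real.log_pow] at h3
      have h4 : Real.log 2 ≤ 1 := by have := Real.log_two_lt_d9; linarith
      have h5 : ((L + 1 : ℕ) : ℝ) * Real.log 2 ≤ ((L + 1 : ℕ) : ℝ) * 1 :=
        mul_le_mul_of_nonneg_left h4 (by positivity)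
      have h6 : L + 1 ≤ 20 * M := by omega
      have h7 : ((L + 1 : ℕ) : ℝ) ≤ 20 * (M : ℝ) := by exact_mod_cast h6
      linarith
    have hlog0 : 0 ≤ Real.log B := Real.log_natCast_nonneg B
    have hMM : Real.log B / 40 ≤ ((M + 1 - K : ℕ) : ℝ) := by
      rw [hcast]; linarith
    have hsq : (Real.log B / 40) ^ 2 ≤ (((M + 1 - K : ℕ) : ℝ)) ^ 2 :=
      pow_le_pow_left₀ (by positivity) hMM 2
    calc c / 6400 * (B : ℝ) ^ 2 * Real.log B ^ 2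
        = (Real.log B / 40) ^ 2 * (c * (B : ℝ) ^ 2 / 4) := by ring
      _ ≤ (((M + 1 - K : ℕ) : ℝ)) ^ 2 * (c * (B : ℝ) ^ 2 / 4) :=
        mul_le_mul_of_nonneg_right hsq (by positivity)
      _ = _ := by push_cast; ring

end Pool.Agent.W891.QO
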